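import Pool.Agent.Lib.MP_df705a_gt.Mg.G090
import Pool.Agent.Lib.MP_df705a_gt.Mg.G091
import Pool.Agent.Lib.MP_df705a_gt.Mg.G094
import Pool.Agent.Lib.MP_df705a_gt.NV.F9a

/-!
# The final theorem, without orientation
-/

open scoped Manifold ContDiff Topology Matrix
open MeasureTheory Filter Set

noncomputable section

namespace Pool.Agent.Lib.MP_df705a_gt.CGN

open Pool.Agent.Lib.MP_df705a_gt
open Pool.Agent.Lib.MP_df705a_gt.SVS (V Act Deck IsLength IsCocycle IsPart Metric jdet fund smp)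
open Pool.Agent.Lib.MP_df705a_gt.CG (UDeck Zk lenP isLength_lenP finite_lenP)
open Pool.Agent.Lib.MP_df705a_gt.RL (jac Geo Cutoffs LGact existsGeo isMet_stdM isom_LG cutoffs_std
  scal_lower exists_fundSet fund_LG one_le_of_scal)

variable {n k m : ℕ} {M : Type*} {q : V (2 * m) → M} {s : V (2 * m) → V k}
  [TopologicalSpace M] [ChartedSpace (V n) M] [IsManifold 𝓘(ℝ, V n) ∞ M]
  {G : Type*} [Group G]

/-- The metric and the fundamental set for a subgroup of finite index. -/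
theorem geo [CompactSpace M] (H : Pin.StableCover (V n) q s) {a : Act G (2 * m)}
    (ha : Deck a q s) (K : Subgroup G) [K.FiniteIndex]
    (ori : ∀ γ ∈ K, ∀ y, 0 < jdet (a.act γ) y) (g : Metric (V n) M) (hg : Twist.PosScal g) :
    1 ≤ m ∧ ∃ (g' : Geo (2 * m)) (F : Set (V (2 * m))) (σ : ℝ), (res a K).toRL.Iso g' ∧
      Cutoffs g' ∧ (res a K).toRL.Fund F ∧ 0 < σ ∧ ∀ y, 4 * σ ≤ g'.scal y := by
  obtain ⟨e, he⟩ := ha.toRL.exists_equiv H
  have he' : ∀ γ, (LGact H).act (e γ) = a.act γ := fun γ => funext (he γ)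
  obtain ⟨g', h1, h2⟩ := existsGeo (2 * m) _ (isMet_stdM g H)
  obtain ⟨σ, hσ, hs⟩ := scal_lower g hg H g' h2
  obtain ⟨F, hF⟩ := exists_fundSet H
  have hFund := fund_LG H hF
  have hFa : a.toRL.Fund F := by
    refine ⟨hF.meas, hF.bdd, fun y => ?_⟩
    obtain ⟨δ, hδ, huniq⟩ := hFund.tile y
    have hes : (LGact H).act δ = a.act (e.symm δ) := by rw [← he', e.apply_symm_apply]
    refine ⟨e.symm δ, ?_, fun γ hγ => ?_⟩
    · change a.act (e.symm δ) y ∈ F
      rw [← hes]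
      exact hδ
    · rw [MulEquiv.eq_symm_apply]
      refine huniq _ ?_
      change (LGact H).act (e γ) y ∈ F
      rw [he']
      exact hγ
  obtain ⟨F', hF'⟩ := exists_fund hFa K (b := (res a K).toRL) fun _ _ => rfl
  refine ⟨one_le_of_scal hσ hs, g', F', σ, ⟨fun γ y => ?_, fun γ y => ?_⟩, cutoffs_std g H g' h1,
    hF', hσ, hs⟩
  · change (jac (a.act (γ : G)) y)ᵀ * g'.h (a.act (γ : G) y) * jac (a.act (γ : G)) y = g'.h y
    rw [h1, h1, ← he']
    exact isom_LG g H (e γ) y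
  · change 0 < (jac (a.act (γ : G)) y).det
    rw [SVS.jdet_eq (a.smooth _)]
    exact ori _ γ.2 y

/-- No metric of positive scalar curvature when the group is fillable. -/
theorem main' [CompactSpace M] (H : Pin.StableCover (V n) q s) {a : Act G (2 * m)}
    (ha : Deck a q s) (e : n + k = 2 * m) {ℓ : G → ℝ} (hℓ : IsLength ℓ)
    (hfin : ∀ r, {γ | ℓ γ ≤ r}.Finite) (hF : Comb.Fillable ℓ n) (g : Metric (V n) M) :
    ¬ Twist.PosScal g := by
  intro hg
  have hG : Countable G := SV.deck_countable H ha.toRL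
  set K : Subgroup G := (sgn a).ker with hK
  have hKf : K.FiniteIndex := inferInstance
  set b : Act K (2 * m) := res a K with hb
  have oriK : ∀ γ ∈ K, ∀ y, 0 < jdet (a.act γ) y := fun γ hγ y => ker_pos a hγ y
  have ori : ∀ γ y, 0 < jdet (b.act γ) y := fun γ y => oriK γ γ.2 y
  obtain ⟨hm, g', F, σ, hiso, hcut, hF', hσ, hscal⟩ := geo H ha K oriK g hg
  have hp : SV.IsProper b.toRL := SV.isProper_of_cutoffs hiso hF' hcut
  obtain ⟨χ, hχ, h0⟩ := SV.exists_isPU b.toRL hF' hp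
  have hpart : IsPart b χ := ⟨hχ.smooth, hχ.supp, hχ.sum⟩
  have hcov : ∀ γ, ∃ c : V k, ∀ y, q (b.act γ y) = q y ∧ s (b.act γ y) = s y + c := by
    intro γ
    obtain ⟨c, hc⟩ := ha.cover (γ : G)
    refine ⟨WithLp.toLp 2 (fun j => (c j : ℝ)), fun y => ⟨(hc y).1, ?_⟩⟩
    ext j
    exact (hc y).2 j
  have hs : SV.IsAdd b.toRL s := by
    refine ⟨fun j => ?_, fun γ => ?_⟩
    · exact (EuclideanSpace.proj j : V k →L[ℝ] ℝ).contDiff.comp H.smooth_s
    · obtain ⟨c, hc⟩ := hcov γ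
      exact ⟨fun j => c j, fun y j => by
        have h1 := (hc y).2
        change s (b.act γ y) j = s y j + c j
        rw [h1]
        rfl⟩
  have hℓK : IsLength (fun γ : K => ℓ γ) :=
    ⟨hℓ.one, fun g => hℓ.nonneg g, fun g => hℓ.inv g, fun g h => hℓ.mul g h⟩
  obtain ⟨δ, hδ, hmain⟩ := SV.geo_main hm g' b.toRL hiso hF' hp hσ hscal e hs hℓK.toSV
  have hfs : (Function.support (fund b χ s e)).Finite := by
    have h1 := SV.finite_fund b.toRL hp e s hχ
    exact h1.subset fun h hh => by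
      rw [Function.mem_support, SVS.fund_eq] at hh
      exact hh
  have hA : ∀ c, IsCocycle (fun γ : K => ℓ γ) δ c → ∑ᶠ h, fund b χ s e h * c (smp h) = 0 := by
    intro c hc
    have h1 := hmain c (hc.toSV hδ.le) F hF' χ hχ
    rw [SV.unfold_sum g' b.toRL hiso hF' hp e hs hχ hc.inv] at h1
    rw [← h1]
    refine finsum_congr fun h => ?_
    rw [SVS.fund_eq, mul_comm]
  have hpG := proper_of_sub a K hp
  have : T2Space M := NV.t2_of_proper H.cov.isLocalHomeomorph.isOpenMap H.surj ha hpG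
  obtain ⟨c, hinv, hcoc, hne⟩ := exists_cocycle H.smooth_q H.smooth_s H.bij e hcov ori hp hpart h0
  exact hne (all_zero hℓ hfin hF hδ hfs hA hinv hcoc)

theorem main [CompactSpace M] (H : Pin.StableCover (V n) q s) (e : n + k = 2 * m)
    {a : Act G (2 * m)} (ha : UDeck a q s) {ℓ : G → ℝ} (hℓ : IsLength ℓ)
    (hfin : ∀ r, {γ | ℓ γ ≤ r}.Finite) (hG : CG.Fillable ℓ n ∨ ∃ σ, CG.IsCombing ℓ σ)
    (g : Metric (V n) M) : ¬ Twist.PosScal g := by
  obtain ⟨b, hb⟩ := exists_deck H ha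
  have h : CG.Fillable ℓ n := hG.elim id fun ⟨_, hσ⟩ => hσ.fillable hℓ n
  exact main' H hb e (isLength_lenP (k := k) hℓ) (finite_lenP hℓ hfin) (h.prod hℓ).old g

end Pool.Agent.Lib.MP_df705a_gt.CGN
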